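import Pool.Agent.V5helper35.AS.StmA

/-!
Project AS, job FIXW: the automorphisms in `G` which fix `w`.
-/

set_option autoImplicit false

namespace Pool.Agent.V5helper87.AS

open Pool.Agent.R387.TC Pool.Agent.N77.CS Pool.Agent.V5helper35.AS

theorem t_FIXW (hPOT : S_POT) (hCEN : S_CEN) : S_FIXW := by
  intro n G Gw w hG hInn hw hconj hGw V hV hVi
  have hGwG : Gw ≤ G := fun σ hσ => ((hGw σ).1 hσ).1
  have hcw : MulAut.conj w ∈ Gw := (hGw _).2 ⟨hInn w, by simp [MulAut.conj_apply]⟩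
  obtain ⟨e, he0, -, he⟩ := Subgroup.exists_pow_mem_of_relIndex_ne_zero hVi hcw
  have heV : MulAut.conj w ^ e ∈ V := (Subgroup.mem_inf.1 he).1
  obtain ⟨M, hMc, hMf, hM⟩ := hPOT n w hw.1 e he0
  set I : Subgroup (MulAut (F n)) := M.map MulAut.conj with hI
  have hcj : ∀ (σ : MulAut (F n)) (m : F n),
      σ * MulAut.conj m * σ⁻¹ = MulAut.conj (σ m) := by
    intro σ m
    ext x
    simp [MulAut.conj_apply]
  have hmem : ∀ (σ : MulAut (F n)) (m : F n), m ∈ M → σ m ∈ M := by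
    intro σ m hm
    have h1 := hMc.fixed σ
    have h2 : m ∈ M.comap (σ : F n ≃* F n).toMonoidHom := by rw [h1]; exact hm
    exact h2
  haveI hIn : I.Normal := by
    refine ⟨?_⟩
    rintro _ ⟨m, hm, rfl⟩ σ
    rw [hcj]
    exact ⟨σ m, hmem σ m hm, rfl⟩
  have hIG : I ≤ G := by
    rintro _ ⟨m, hm, rfl⟩
    exact hInn m
  have hV'G : V ⊔ I ≤ G := sup_le (hV.trans hGwG) hIG
  have hV' : (V ⊔ I).relIndex G ≠ 0 := by
    haveI : Finite (Gw ⧸ V.subgroupOf Gw) := by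
      haveI : (V.subgroupOf Gw).FiniteIndex := ⟨hVi⟩
      exact Subgroup.finite_quotient_of_finiteIndex
    haveI : Finite (F n ⧸ M) := Subgroup.finite_quotient_of_finiteIndex
    let f : (Gw ⧸ V.subgroupOf Gw) × (F n ⧸ M) → G ⧸ (V ⊔ I).subgroupOf G := fun p =>
      QuotientGroup.mk ⟨MulAut.conj p.2.out * (p.1.out : MulAut (F n)),
        G.mul_mem (hInn _) (hGwG p.1.out.2)⟩
    have hf : Function.Surjective f := by
      intro q
      obtain ⟨⟨σ, hσ⟩, rfl⟩ := QuotientGroup.mk_surjective q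
      obtain ⟨g, hg⟩ := hconj σ hσ
      have hρ : (MulAut.conj g)⁻¹ * σ ∈ Gw := by
        refine (hGw _).2 ⟨G.mul_mem (G.inv_mem (hInn g)) hσ, ?_⟩
        rw [MulAut.mul_apply, hg, ← map_inv, MulAut.conj_apply]
        group
      refine ⟨(QuotientGroup.mk ⟨_, hρ⟩, QuotientGroup.mk g), ?_⟩
      change QuotientGroup.mk _ = QuotientGroup.mk _
      rw [QuotientGroup.eq, Subgroup.mem_subgroupOf]
      have h1 : (QuotientGroup.mk (QuotientGroup.mk (⟨_, hρ⟩ : Gw) : Gw ⧸ V.subgroupOf Gw).out :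
          Gw ⧸ V.subgroupOf Gw) = QuotientGroup.mk ⟨_, hρ⟩ := Quotient.out_eq' _
      have h2 : (QuotientGroup.mk (QuotientGroup.mk g : F n ⧸ M).out : F n ⧸ M) =
          QuotientGroup.mk g := Quotient.out_eq' _
      rw [QuotientGroup.eq, Subgroup.mem_subgroupOf] at h1
      rw [QuotientGroup.eq] at h2
      set a : Gw := (QuotientGroup.mk (⟨_, hρ⟩ : Gw) : Gw ⧸ V.subgroupOf Gw).out with ha
      set b : F n := (QuotientGroup.mk g : F n ⧸ M).out with hb
      have h3 : ((a : MulAut (F n)))⁻¹ * ((MulAut.conj g)⁻¹ * σ) ∈ V := h1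
      have h4 : (MulAut.conj b * (a : MulAut (F n)))⁻¹ * σ =
          ((a : MulAut (F n))⁻¹ * MulAut.conj (b⁻¹ * g) * ((a : MulAut (F n))⁻¹)⁻¹) *
            ((a : MulAut (F n))⁻¹ * ((MulAut.conj g)⁻¹ * σ)) := by
        rw [map_mul, map_inv]
        group
      change (MulAut.conj b * (a : MulAut (F n)))⁻¹ * σ ∈ V ⊔ I
      rw [h4]
      refine Subgroup.mul_mem _ ?_ (Subgroup.mem_sup_left h3)
      rw [hcj]
      exact Subgroup.mem_sup_right ⟨_, hmem _ _ h2, rfl⟩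
    haveI := Finite.of_surjective f hf
    exact Subgroup.index_ne_zero_of_finite
  obtain ⟨K, hK1, hK2, hK⟩ := hG (V ⊔ I) hV'G hV'
  refine ⟨K, hK1, hK2, fun ψ hψ hT => ?_⟩
  have h1 := hK ψ (hGwG hψ) hT
  obtain ⟨v, hv, _, ⟨m, hm, rfl⟩, rfl⟩ := Subgroup.mem_sup_of_normal_right.1 h1
  have hvw : v w = w := ((hGw v).1 (hV hv)).2
  have h3 : (v * MulAut.conj m) w = w := ((hGw _).1 hψ).2
  have h4 : MulAut.conj m w = w := by
    rw [MulAut.mul_apply] at h3
    exact v.injective (h3.trans hvw.symm)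
  have h5 : m * w = w * m := by
    rw [MulAut.conj_apply] at h4
    exact mul_inv_eq_iff_eq_mul.1 h4
  obtain ⟨i, rfl⟩ := hCEN n w hw m h5
  obtain ⟨j, rfl⟩ := hM i hm
  refine V.mul_mem hv ?_
  rw [map_zpow, zpow_mul, zpow_natCast]
  exact V.zpow_mem heV j

end Pool.Agent.V5helper87.AS
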